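import Pool.Agent.DPS.Stmts
import Pool.Agent.DPS.Final

/-!
Degree power sums of t-intersecting families (MP_d97b4e_co), second part: all levels r ≤ t.
Definitions on top of `Pool.Agent.DPS.Defs` (`KS`, `Y`, `star`, `dg`, `M`, `ip`, `ind`, `y`, `mp`,
`kap`, `cc`, `dd`, `gk`).
-/

namespace Pool.Agent.DPL

open Finset Polynomial Pool.Agent.DPS

/-- The Lagrange basis polynomial of the node `y n l`, all nodes `y n 0, ..., y n k`. -/
noncomputable def eb (n k l : ℕ) : ℝ[X] := Lagrange.basis (Finset.range (k + 1)) (y n) l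

/-- The projection to the eigenspace `l`. -/
noncomputable def E (n k l : ℕ) : (KS n k → ℝ) →ₗ[ℝ] (KS n k → ℝ) := aeval (Y n k) (eb n k l)

/-- The weight of `f` on the level `l`. -/
noncomputable def lw (n k l : ℕ) (f : KS n k → ℝ) : ℝ := ip f (E n k l f)

/-- `1 + ∑ cc 0 l` -/
noncomputable def cs (n k t : ℕ) : ℝ := 1 + ∑ l ∈ Finset.Icc 1 t, cc n k t 0 l

/-- `∑ cc j l` -/
noncomputable def th (n k t j : ℕ) : ℝ := ∑ l ∈ Finset.Icc 1 t, cc n k t j l

/-- The function `R ↦ ∑_F L (|R \ F|) f F`. -/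
noncomputable def wf {n k : ℕ} (L : ℕ → ℝ) (f : KS n k → ℝ) (R : Finset (Fin n)) : ℝ :=
  ∑ F : KS n k, L (R \ F.1).card * f F

end Pool.Agent.DPL
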