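import Pool.Agent.DPL.Defs

/-!
Statements of the squad DPL, part A (MP_d97b4e_co): the level inequality and the spectral part.
Every row is one statement `XStmt`; the docstring contains the complete proof. Theorem names: `x`
in lower case, namespace `Pool.Agent.DPL.HNN`. The theorems of the squad DPS may be used freely
(assembled in `Pool.Agent.Helper59_DPS.All`, namespace `Pool.Agent.DPS.H59`: `str the' pos' mpo' gen'
p2a'`; the single files: Helper56_DPS.SPE (H56.spe), Helper77_DPS.SYM (H77.sym), Helper60_DPS.STA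
(H60.sta str), Helper94_DPS.ANN (H94.ann mpo'), Helper39_DPS.KNA MEV (H39.kna, H39.mev),
Helper88_DPS.Kev (H88.kev H39.mev), Helper88_DPS (H88.sui H81.sup, H88.ddi, H88.qua),
Helper65_DPS.DDR (H65.ddr), Helper94_DPS.DDC (H94.ddc H65.ddr, H94.dd_shift, H94.y_sub, H94.y_lt,
H94.y_injOn), Helper94_DPS.WIT (H94.kap_gk), Helper81_DPS.WIM (H81.wim), Helper33_DPS.Pos
(H33.EE, EE_pos, EE_zero, cc_ratio, cc_nonneg, eval_Q, kap_ne, two_k_le), Helper33_DPS.Gen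
(H33.ip_add, ip_sub, ip_smul, ip_ind, star_eq_ind, aeval_kp)).
-/

namespace Pool.Agent.DPL

open Finset Polynomial Pool.Agent.DPS

/-- CSC (70 lines). `1 + ∑_{l=1..t} cc 0 l = (n)_t / (k)_t`. Proof: `H88.ddi` (DDIStmt) with
`s = Icc 1 t`, `j = 0`, `f = gk n k`: since `gk l = kap 0 / kap l` (`H94.kap_gk`) and
`EE n k t 0 l = - cc n k t 0 l` (`H33.EE_zero`) the left side is `1 + ∑ cc 0 l`; the right side is
`∏_{m=1..t} (y 0 - y m) * dd (y n) (range (t+1)) (gk n k)`, by DDC (`H94.ddc H65.ddr`)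
`= (-1)^t ∏ y m * (-1)^t / (t! (k)_t)` and `∏_{m=1..t} m (n + 1 - m) = t! (n)_t`
(`(n)_t = n.descFactorial t`). -/
def CSCStmt : Prop :=
  ∀ (n k t : ℕ), t < k → 2 * k ≤ n →
    cs n k t * (k.descFactorial t : ℝ) = (n.descFactorial t : ℝ)

/-- THC (100 lines). `1 + θ_{t+1} = (n-t-1)_t / (n-k-1)_t`. Proof: `H88.ddi` with `s = Icc 1 t`,
`j = t + 1`; `EE n k t (t+1) l = - cc n k t (t+1) l` (`H33.EE_pos`, `(t+1)+t` odd). So
`1 + θ = (kap (t+1) / kap 0) * ∏_{m=1..t} (y (t+1) - y m) * dd (y n) (insert (t+1) (Icc 1 t)) (gk n k)`.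
`insert (t+1) (Icc 1 t) = (range (t+1)).image (· + 1)`, so by `H94.dd_shift` and DDC the divided
difference is `-((n-k)/k) * (-1)^t / (t! (k-1)_t)`. `kap (t+1) / kap 0 = (-1)^(t+1) (k)_{t+1}/(n-k)_{t+1}`
(KRA), `y (t+1) - y m = (t+1-m)(n-t-m)` (`H94.y_sub`), so the product is `t! (n-t-1)_t`; finally
`(k)_{t+1} = k (k-1)_t` and `(n-k)_{t+1} = (n-k) (n-k-1)_t`. -/
def THCStmt : Prop :=
  ∀ (n k t : ℕ), t + 1 ≤ k → 2 * k ≤ n →
    (1 + th n k t (t + 1)) * ((n - k - 1).descFactorial t : ℝ) = ((n - t - 1).descFactorial t : ℝ)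

/-- KRA (40 lines). `|kap j / kap 0| = (k)_j / (n-k)_j`. Proof: `kap j / kap 0` has absolute value
`C(n-k-j,k-j)/C(n-k,k)`; write both with factorials (`Nat.choose_mul_factorial_mul_factorial`). -/
def KRAStmt : Prop :=
  ∀ (n k j : ℕ), j ≤ k → 2 * k ≤ n →
    |kap n k j / kap n k 0| * ((n - k).descFactorial j : ℝ) = (k.descFactorial j : ℝ)

/-- ODA (100 lines; uses CSC THC KRA). The case `j = t + 1`. By `H33.cc_ratio`,
`cc (t+1) l = W * (y l / (y (t+1) - y l)) * cc 0 l`, `W = |kap (t+1)/kap 0| * ∏_{m=1..t} (y (t+1) - y m)/y m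
= (k)_{t+1}/(n-k)_{t+1} * (n-t-1)_t/(n)_t` (KRA, products as in CSC, THC). With
`(k)_{t+1} = (k)_t (k-t)`, `(n-k)_{t+1} = (n-k)(n-k-1)_t`, CSC and THC the left side of the claim is
`cc 0 l * ((k-t)/(n-k)) * (y l/(y (t+1) - y l)) * (1 + θ)`. So one needs
`(k-t) * y l ≤ 2 (n-k) (y (t+1) - y l)`. As `y l ≤ y t` it is enough for `l = t`:
`y t = t (n+1-t)`, `y (t+1) - y t = n - 2t`. With `a = k - t ≥ 2`, `n = (t+1)(a+1) + x`:
`(t a) (t a + a + 2 + x) ≤ 2 (t a + 1 + x) (t a + a + 1 - t + x)`; the difference for `x = 0` is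
`t^2 a (a-2) + t a^2 + 2 t (a-1) + 2 a + 2 > 0`, and the coefficient of `x` is
`2 (2 t a + a + 2 - t) - t a > 0`. -/
def ODAStmt : Prop :=
  ∀ (n k t l : ℕ), l ∈ Finset.Icc 1 t → t + 2 ≤ k → (t + 1) * (k - t + 1) ≤ n →
    cc n k t (t + 1) l * cs n k t ≤ 2 * cc n k t 0 l * (1 + th n k t (t + 1))

/-- ODB (150 lines; uses CSC KRA). The case `j = t + 3`, `t ≥ 2`. Let `a = k - t ≥ 3`, `D = n - k`, so
`D ≥ t a + 1`. As in ODA with `∏_{m=1..t} (y (t+3) - y m) = ∏ (t+3-m)(n-2-t-m) = ((t+2)!/2) (n-t-3)_t`: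
`cc (t+3) l * cs = cc 0 l * X * (y l/(y (t+3) - y l))`,
`X = a (a-1) (a-2) (t+1) (t+2)/(2 D (D-t-1) (D-t-2)) * P`, `P = (n-t-3)_t/(D-1)_t = ∏_{i<t} (D+a-3-i)/(D-1-i)`
(`(D)_{t+3} = D (D-1)_t (D-t-1) (D-t-2)`). `P ≤ (1 + 1/t)^t ≤ exp 1 < 3`, because
`(a-2)/(D-1-i) ≤ (a-2)/(t a - i) ≤ 1/t` for `i < t`. `y l/(y (t+3) - y l) ≤ y t/(y (t+3) - y t)
= t (n+1-t)/(3 (n-2-2t))`. So (with `n = D + t + a`) one needs
`3 a (a-1) (a-2) (t+1) (t+2) t (D+a+1) ≤ 12 D (D-t-1) (D-t-2) (D+a-2-t)`, i.e. with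
`D = t a + 1 + x`, `t = s + 2`, `a = b + 3`, nonnegative `s b x`: the difference
is a polynomial with nonnegative coefficients (`positivity` after `ring_nf`, or `nlinarith`);
one may first use that `(D-t-1) ≥ t (a-1)`, `(D-t-2) ≥ t (a-1) - 1`, `D ≥ t a + 1` and
`(D+a+1)/(D+a-2-t) ≤ (t a+a+2)/(t a+a-1-t)`. -/
def ODBStmt : Prop :=
  ∀ (n k t l : ℕ), 2 ≤ t → l ∈ Finset.Icc 1 t → t + 3 ≤ k → (t + 1) * (k - t + 1) ≤ n →
    cc n k t (t + 3) l * cs n k t ≤ 2 * cc n k t 0 l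

/-- ODD (60 lines; uses ODA ODB; `H81.wim`). All odd levels. `j = t + 1`: ODA. Otherwise `j ≥ t + 3`.
If `t ≥ 2`: by WIM (induction on `j`) `cc j l ≤ cc (t+3) l`, then ODB and `0 ≤ th`, `0 ≤ cs`.
If `t = 1`: `l = 1`, `th = cc j 1`, `cs = 1 + cc 0 1` and `cc 0 1 = |kap 0/kap 1| = (n-k)/k ≥ 1`
(empty product), so `2 c0 (1 + c) - c (1 + c0) = 2 c0 + c (c0 - 1) ≥ 0`. -/
def ODDStmt : Prop :=
  ∀ (n k t j l : ℕ), l ∈ Finset.Icc 1 t → t < j → j ≤ k → t + 2 ≤ k → Odd (j + t) →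
    (t + 1) * (k - t + 1) ≤ n →
    cc n k t j l * cs n k t ≤ 2 * cc n k t 0 l * (1 + th n k t j)

/-- CER (120 lines). The certificate for an arbitrary form `m(Y)`. Proof: copy of `H33.gen`
(Helper33_DPS.Gen) with `lam j = m.eval (y n j)` and `Q` = the interpolation polynomial of `H33.pos`.
(i) `N.eval (y n j) = 0` for `j ≤ t` (the assumption on `α` is exactly the case `j = 0`, since
`EE 0 l = - cc 0 l`). (ii) For `t < j ≤ k`, `N.eval (y n j) = α - lam j + ∑ (lam l - α) * EE j l` and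
`EE j l = (-1)^(j+t) cc j l`: for `j + t` odd it is `α (1 + th) - (lam j + ∑ cc j l lam l)`, for `j + t`
even `α (1 - th) - (lam j - ∑ cc j l lam l)`. -/
def CERStmt : Prop :=
  ∀ (n k t : ℕ), 1 ≤ t → t < k → 2 * k ≤ n → ∀ (m : ℝ[X]) (α : ℝ),
    α * cs n k t = m.eval (y n 0) + ∑ l ∈ Finset.Icc 1 t, cc n k t 0 l * m.eval (y n l) →
    (∀ T : Finset (Fin n), T.card = t →
      ip (star k T) (aeval (Y n k) m (star k T)) = α * ip (star k T) (star k T)) ∧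
    ((∀ j, t < j → j ≤ k →
        (Odd (j + t) → m.eval (y n j) + ∑ l ∈ Finset.Icc 1 t, cc n k t j l * m.eval (y n l) ≤
          α * (1 + th n k t j)) ∧
        (Even (j + t) → m.eval (y n j) - ∑ l ∈ Finset.Icc 1 t, cc n k t j l * m.eval (y n l) ≤
          α * (1 - th n k t j))) →
      ∀ A : Finset (KS n k), (∀ F ∈ A, ∀ G ∈ A, t ≤ (F.1 ∩ G.1).card) →
        ip (ind A) (aeval (Y n k) m (ind A)) ≤ α * (A.card : ℝ))

/-- LEV (120 lines; uses CER ODD; `H59.the'`). THE LEVEL INEQUALITY. Let `c = cc 0 l`, `α = 2 c / cs`,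
`m = eb n k l + C (c / C(n,k)) * mp n k 0`. `(mp n k 0).eval (y j)` is `C(n,k)` for `j = 0` and 0 for
`1 ≤ j ≤ k` (`H39.mev`), `(eb n k l).eval (y j) = [j = l]` (`Lagrange.eval_basis_self`,
`Lagrange.eval_basis_of_ne`). So `m (y 0) = c`, `m (y l) = 1`, the other values are 0 and
`α cs = c + c`. Odd `j`: `cc j l ≤ α (1 + th j)` is ODD divided by `cs > 0`. Even `j` (`j ≥ t + 2`):
`- cc j l ≤ 0 ≤ α (1 - th j)` by THE (`H59.the'`). `ip f (aeval Y (mp n k 0) f) = (∑ f)^2` (`H59.mpo'`,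
`H88.qua` with `r = 0`, `dg f ∅ = ∑ f`). CER for `m`: `lw_l(A) + (c/C(n,k)) |A|^2 ≤ α |A|` and
`lw_l(S) + (c/C(n,k)) |S|^2 = α |S|` (`|S| = ip (star) (star) = ∑ star`); CER (first part) for
`m' = eb n k l`, `α' = c / cs = α/2`: `lw_l(S) = (α/2) |S|`. Hence `c/C(n,k) = α/(2 |S|)` and
`lw_l(A) ≤ α |A| - α |A|^2/(2 |S|) ≤ α |S|/2`. (`|S| > 0` as `t < k ≤ n`.) -/
def LEVStmt : Prop :=
  ∀ (n k t l : ℕ), 1 ≤ l → l ≤ t → t + 2 ≤ k → (t + 1) * (k - t + 1) ≤ n →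
    ∀ A : Finset (KS n k), (∀ F ∈ A, ∀ G ∈ A, t ≤ (F.1 ∩ G.1).card) →
    ∀ T : Finset (Fin n), T.card = t → lw n k l (ind A) ≤ lw n k l (star k T)

/-- LZE (50 lines). Level 0: `lw n k 0 f = (∑ f)^2 / C(n,k)`. Proof: the polynomial
`mp n k 0 - C (C(n,k)) * eb n k 0` vanishes at `y 0, ..., y k` (`H39.mev`), hence is a multiple of
`∏_{l ≤ k} (C (y l) - X)` (as in `H33.gen`), which kills everything (`H94.ann H59.mpo'`);
`ip f (M n k 0 f) = (∑ f)^2` (`H88.qua`, `H59.mpo'`). -/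
def LZEStmt : Prop :=
  ∀ (n k : ℕ), 2 * k ≤ n → ∀ f : KS n k → ℝ,
    lw n k 0 f * (n.choose k : ℝ) = (∑ F, f F) ^ 2

/-- IDE (100 lines). Spectral decomposition. For every polynomial `b`, `b - ∑_{l ≤ k} C (b(y l)) * eb l`
and `b * eb l - C (b(y l)) * eb l` vanish at the nodes `y 0..y k` (distinct, `H94.y_injOn`), hence are
multiples of `∏_{l ≤ k} (C (y l) - X)`, killed by `Y` (`H94.ann H59.mpo'`). The third part:
polynomials in `Y` are symmetric (`H77.sym`, induction on the polynomial; see Helper56_DPS.SPE), and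
`E l` is idempotent (`b = eb l`): `ip f (E f) = ip f (E (E f)) = ip (E f) (E f)`. -/
def IDEStmt : Prop :=
  ∀ (n k : ℕ), 2 * k ≤ n →
    (∀ (b : ℝ[X]) (f : KS n k → ℝ),
      aeval (Y n k) b f = ∑ l ∈ Finset.range (k + 1), b.eval (y n l) • E n k l f) ∧
    (∀ (b : ℝ[X]) (l : ℕ), l ≤ k → ∀ f : KS n k → ℝ,
      aeval (Y n k) b (E n k l f) = b.eval (y n l) • E n k l f) ∧
    (∀ (l : ℕ), l ≤ k → ∀ f : KS n k → ℝ, lw n k l f = ip (E n k l f) (E n k l f)) ∧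
    (∀ (l : ℕ) (f g : KS n k → ℝ), ip (E n k l f) g = ip f (E n k l g))

/-- DGE (60 lines; uses IDE). High levels have no small degrees. `dg (E l f) J = ip (star k J) (E l f)
= ip (E l (star k J)) f` (IDE, symmetry) and `E l (star k J) = 0` for `|J| < l ≤ k`: `eb n k l` is a
constant times `∏_{i ≤ k, i ≠ l} (X - C (y i))`, a multiple of `∏_{i ≤ |J|} (C (y i) - X)`, which kills
`star k J` (`H60.sta str`). -/
def DGEStmt : Prop :=
  ∀ (n k l : ℕ), 2 * k ≤ n → l ≤ k → ∀ (f : KS n k → ℝ) (J : Finset (Fin n)), J.card < l →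
    dg (E n k l f) J = 0

/-- WDG (60 lines). `wf` is a combination of degrees. Newton: `h(x) = L (r - x)` satisfies
`h x = ∑_{j ≤ r} a j * C(x,j)` for all `x ≤ r` with `a j = ∑_{i ≤ j} (-1)^(j-i) C(j,i) h(i)`
(Mathlib `shift_eq_sum_fwdDiff_iter` at 0, or direct); for `|R| = r`: `|R \ F| = r - |R ∩ F|`,
`C(|R ∩ F|, j) = #{J ⊆ R, |J| = j, J ⊆ F}`. Exchange the sums. -/
def WDGStmt : Prop :=
  ∀ (L : ℕ → ℝ) (r : ℕ), ∃ a : ℕ → ℝ, ∀ (n k : ℕ) (f : KS n k → ℝ) (R : Finset (Fin n)), R.card = r →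
    wf L f R = ∑ j ∈ Finset.range (r + 1), a j * ∑ J ∈ powersetCard j R, dg f J

/-- PRM (60 lines). Two pairs of k-sets with the same intersection number are conjugate. The four cells
`F ∩ G`, `F \ G`, `G \ F`, rest have the same sizes for both pairs; glue bijections
(`Finset.equivOfCardEq` on the cells, or `Equiv.sigmaFiberEquiv` for the map
`x ↦ (decide (x ∈ F), decide (x ∈ G))`). -/
def PRMStmt : Prop :=
  ∀ (n k : ℕ) (F G F' G' : KS n k), (F.1 ∩ G.1).card = (F'.1 ∩ G'.1).card →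
    ∃ σ : Equiv.Perm (Fin n), F.1.map σ.toEmbedding = F'.1 ∧ G.1.map σ.toEmbedding = G'.1

/-- PLY (100 lines; uses PRM). The Gram form of `wf` is a polynomial in `Y`. Let
`B F G = ∑_{|R| = r} L (|R \ F|) L (|R \ G|)`. `B` is invariant under permutations (reindex `R` by
`R.map σ`), so by PRM there is `h : ℕ → ℝ` with `B F G = h |F ∩ G|` (choose representatives).
Newton: `h x = ∑_{i ≤ k} b i * C(x,i)` for `x ≤ k`. `(M n k i f) F = ∑_G C(|F ∩ G|, i) f G`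
(exchange the sums in the definition of `M`), and `M n k i = aeval Y (mp n k i)` (`H59.mpo'`).
So `b = ∑_{i ≤ k} C (b i) * mp n k i`. Finally `∑_R (wf L f R)^2 = ∑_F ∑_G f F B F G f G`. -/
def PLYStmt : Prop :=
  ∀ (n k r : ℕ) (L : ℕ → ℝ), ∃ b : ℝ[X], ∀ f : KS n k → ℝ,
    ∑ R ∈ powersetCard r (univ : Finset (Fin n)), wf L f R ^ 2 = ip f (aeval (Y n k) b f)

/-- FRM (80 lines; uses IDE DGE WDG PLY). Comparison of the forms. By PLY and IDE,
`∑_R (wf L f R)^2 = ∑_{l ≤ k} b(y l) * lw l f` for all `f`. Applied to `E l f` (IDE: `E l (E l f) = E l f`,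
`E l' (E l f) = 0` for `l' ≠ l`, part two with `b = eb l'`) it gives
`b(y l) * lw l f = ∑_R (wf L (E l f) R)^2 ≥ 0`, which is 0 for `r < l ≤ k` by WDG and DGE. For `l ≤ r`:
if `lw l f = 0` then `b(y l) * lw l f = 0 ≤ b(y l) * lw l g`; otherwise `lw l f > 0`, `b(y l) ≥ 0` and
`b(y l) * lw l f ≤ b(y l) * lw l g`. Sum over `l`. -/
def FRMStmt : Prop :=
  ∀ (n k r : ℕ), 2 * k ≤ n → r ≤ k → ∀ (L : ℕ → ℝ) (f g : KS n k → ℝ),
    (∀ l, l ≤ r → lw n k l f ≤ lw n k l g) →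
    ∑ R ∈ powersetCard r (univ : Finset (Fin n)), wf L f R ^ 2 ≤
      ∑ R ∈ powersetCard r (univ : Finset (Fin n)), wf L g R ^ 2

/-- WFI (40 lines; uses LEV LZE FRM; `H59.p2a'`). Levels `1 ≤ l ≤ r`: LEV. Level 0: LZE with
`∑ ind A = |A|`, `∑ star = ip star star`, `|A| ≤ ip star star` (`H59.p2a'`). Then FRM. -/
def WFIStmt : Prop :=
  ∀ (n k t r : ℕ), 1 ≤ t → r ≤ t → t + 2 ≤ k → (t + 1) * (k - t + 1) ≤ n → ∀ L : ℕ → ℝ,
    ∀ A : Finset (KS n k), (∀ F ∈ A, ∀ G ∈ A, t ≤ (F.1 ∩ G.1).card) →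
    ∀ T : Finset (Fin n), T.card = t →
    ∑ R ∈ powersetCard r (univ : Finset (Fin n)), wf L (ind A) R ^ 2 ≤
      ∑ R ∈ powersetCard r (univ : Finset (Fin n)), wf L (star k T) R ^ 2

end Pool.Agent.DPL
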