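import Pool.Agent.DPL.StmtsA

/-!
Squad DPL (MP_d97b4e_co), part B: the majorant.

THEOREM (all levels `r ≤ t`).  `1 ≤ t < k`, `n ≥ (t+1)(k-t+1)`, `A` t-intersecting, `T` a t-set, `r ≤ t`,
`r ≤ k - 2`, `μ ≥ 0`: the sum over the r-sets of `(deg - μ)_+ ^ 2` is at most that of the star of `T`.
Hence the same for all powers `p ≥ 2`.

Part A (helper59): for `l ≤ min t (k-2)` the weight of `ind A` on the eigenspace `y l` is at most
that of `star k T`, hence (WFI) the same for the sum of the squares of `wf L`, `r ≤ t`.  Part B (this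
file): for every `lam ≥ 0` there is a function `L` with
`(dg (ind A) R - lam |A|)_+ ≤ |∑_{F ∈ A} L(|R \ F|)|`, with equality for the star.

Every row is one statement `XStmt`; the docstring contains the complete proof.  Theorem names:
`x` in lower case, namespace `Pool.Agent.DPL.HNN`.  `N = n - t`, `K = k - t`, `s = |R \ T|`, `u = |R \ F|`.
-/

namespace Pool.Agent.DPL

open Finset Polynomial Pool.Agent.DPS

/-- the number of K-subsets of an N-set which miss exactly `u` of `s` given points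
(`u ≤ N - K`): the complement is an (N-K)-set with `u` of the `s` points -/
def pc (N K s u : ℕ) : ℕ := s.choose u * (N - s).choose (N - K - u)

/-- the probability that a K-subset of an N-set contains `s` given points -/
noncomputable def dl (N K s : ℕ) : ℝ := ((N - s).choose (N - K) : ℝ) / (N.choose K : ℝ)

/-- the absolute coefficients of the inverse of the matrix `pc N K s u / C(N,K)`, up to `C(N,K)` -/
noncomputable def bb (N K u i : ℕ) : ℝ :=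
  (u.choose i : ℝ) * (K.ascFactorial (u - i) : ℝ) /
    (((N - i - K).descFactorial (u - i) : ℝ) * ((N - i).choose K : ℝ))

/-! ### Functions on `{0..r}` -/

/-- NWT (30 lines). Newton inversion. Exchange the sums, `C(s,v) C(v,i) = C(s,i) C(s-i,v-i)`, and
`∑ (-1)^w C(m,w) = 0` for `m ≥ 1`; or Mathlib: `fwdDiff_iter_eq_sum_shift` and
`shift_eq_sum_fwdDiff_iter`. -/
def NWTStmt : Prop := ∀ (g : ℕ → ℝ) (s : ℕ),
  ∑ v ∈ range (s + 1), (s.choose v : ℝ) *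
    ∑ i ∈ range (v + 1), (-1 : ℝ) ^ (v - i) * (v.choose i : ℝ) * g i = g s

/-- HYP (60 lines). `C(s,u) C(u,v) = C(s,v) C(s-v,u-v)` and Vandermonde (`Nat.add_choose_eq`):
`∑_u C(s-v,u-v) C(N-s,N-K-u) = C(N-v,N-K-v) = C(N-v,K)`. -/
def HYPStmt : Prop := ∀ (N K s v : ℕ), K ≤ N → s ≤ N - K → v ≤ s →
  ∑ u ∈ range (s + 1), pc N K s u * u.choose v = s.choose v * (N - v).choose K

/-- DIF (60 lines). Induction on `m` for all `N`: with `S(m,N)` the left side,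
`S(m+1,N) = S(m,N) - S(m,N-1)` (`Nat.choose_succ_succ`), `C(N-1,K) = C(N,K) (N-K)/N`,
`(N-K)_m = (N-K)_{m+1}/(N-K-m)` and `(N-1-K)_m = (N-K)_{m+1}/(N-K)` (falling factorials), so
`S(m+1,N) = (-1)^m K^(m) ((N-K-m) - N)/((N-K)_{m+1} C(N,K))`. -/
def DIFStmt : Prop := ∀ (N K m : ℕ), m + K ≤ N →
  ∑ w ∈ range (m + 1), (-1 : ℝ) ^ w * (m.choose w : ℝ) / ((N - w).choose K : ℝ) =
    (-1 : ℝ) ^ m * (K.ascFactorial m : ℝ) / (((N - K).descFactorial m : ℝ) * (N.choose K : ℝ))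

/-- ALT (20 lines). Alternating sum of a nondecreasing nonnegative sequence (induction in steps
of two, or: `a_u - (value for u - 1)` lies between `0` and `a_u`). -/
def ALTStmt : Prop := ∀ (u : ℕ) (a : ℕ → ℝ), (∀ i, 0 ≤ a i) → (∀ i, i < u → a i ≤ a (i + 1)) →
  0 ≤ ∑ i ∈ range (u + 1), (-1 : ℝ) ^ (u - i) * a i ∧
    ∑ i ∈ range (u + 1), (-1 : ℝ) ^ (u - i) * a i ≤ a u

/-- MNB (60 lines). With `i + 1 = j`, `m = u - j`:
`bb u i / bb u j = (j/(m+1)) (K+m)/(N-j+1)` (`C(u,i)/C(u,j) = j/(m+1)`, one more factor `K+m` in the rising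
factorial, `(N-i-K)_{m+1} = (N-i-K) (N-j-K)_m`, `C(N-i,K) = C(N-j,K) (N-i)/(N-i-K)`, `N - i = N-j+1`), and
`j (K+m) ≤ (m+1)(N-j+1)`: `N ≥ (t+1) K + 1`, `t ≥ j+m`, `K ≥ j+m` give
`(m+1)(N-j+1) - j(K+m) ≥ K (mj + (m+1)^2) + (m+1)(2-j) - jm
≥ j m^2 + m (m+1)^2 + 2(m+1) + mj(j+m) ≥ 0`. -/
def MNBStmt : Prop := ∀ (N K t u i : ℕ), (t + 1) * K + 1 ≤ N → u ≤ t → u ≤ K → i < u →
  0 ≤ bb N K u i ∧ bb N K u i ≤ bb N K u (i + 1)

/-- GEX (120 lines; uses NWT HYP DIF ALT MNB). PROOF. `g s = max (lam - dl N K s) 0` is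
nondecreasing (`dl` is antitone: `C(N-s-1,N-K) ≤ C(N-s,N-K)`) and nonnegative. Put
`G u = ∑_{v ≤ u} C(u,v) (C(N,K)/C(N-v,K)) D_v`, `D_v = ∑_{i ≤ v} (-1)^(v-i) C(v,i) g i`.
(i) extend the sum over `v` to `v ≤ s`, exchange, HYP and NWT:
`∑_u pc s u G u = ∑_v C(N,K) D_v C(s,v) = C(N,K) g s`.
(ii) exchange, `C(u,v) C(v,i) = C(u,i) C(u-i,v-i)`, DIF with `N - i`, `m = u - i`:
`G u = C(N,K) ∑_{i ≤ u} (-1)^(u-i) bb N K u i * g i`; the sequence `bb u i * g i` is nondecreasing in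
`i ≤ u` (MNB) and nonnegative, so ALT.  (`r ≤ t ≤ N - K` because `N - K ≥ t K + 1`, `K ≥ 1`.) -/
def GEXStmt : Prop := ∀ (N K t r : ℕ) (lam : ℝ), 1 ≤ K → (t + 1) * K + 1 ≤ N → r ≤ t → 0 ≤ lam →
  ∃ G : ℕ → ℝ,
    (∀ s, s ≤ r → ∑ u ∈ range (s + 1), (pc N K s u : ℝ) * G u =
      (N.choose K : ℝ) * max (lam - dl N K s) 0) ∧
    (∀ u, u ≤ r → u ≤ K → 0 ≤ G u)

/-- LEX (40 lines; uses GEX HYP). `L u = (if u = 0 then 1 else 0) - lam + G u`;
`∑_u pc s u = C(N,K)` (HYP, `v = 0`), `pc s 0 = C(N,K) dl s`, and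
`x - lam + max (lam - x) 0 = max (x - lam) 0`. -/
def LEXStmt : Prop := ∀ (N K t r : ℕ) (lam : ℝ), 1 ≤ K → (t + 1) * K + 1 ≤ N → r ≤ t → 0 ≤ lam →
  ∃ L : ℕ → ℝ,
    (∀ s, s ≤ r → ∑ u ∈ range (s + 1), (pc N K s u : ℝ) * L u =
      (N.choose K : ℝ) * max (dl N K s - lam) 0) ∧
    (∀ u, u ≤ r → u ≤ K → (if u = 0 then 1 else 0) - lam ≤ L u)

/-! ### The star and the majorant -/

/-- CNT (80 lines). `F ↦` complement: an (n-k)-subset of the complement of `T` (which has `n - t`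
points) that meets `R \ T` in exactly `u` points; these correspond to pairs (u-subset of `R \ T`,
(n-k-u)-subset of the complement of `R ∪ T`, which has `n - t - s` points). -/
def CNTStmt : Prop := ∀ (n k : ℕ) (T R : Finset (Fin n)) (u : ℕ), T.card ≤ k → k ≤ n → u ≤ n - k →
  (univ.filter fun F : KS n k => T ⊆ F.1 ∧ (R \ F.1).card = u).card =
    pc (n - T.card) (k - T.card) (R \ T).card u

/-- STV (50 lines; uses CNT). Values for the star. Group the `F ⊇ T` by `u = |R \ F| ≤ |R \ T|`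
(`F ⊇ T`). Second part: `L u = 1` for `u = 0` and `0` else. Third part: `R = ∅` in the second. -/
def STVStmt : Prop := ∀ (n k : ℕ) (T R : Finset (Fin n)), T.card ≤ k → k ≤ n → R.card ≤ n - k →
  (∀ L : ℕ → ℝ, wf L (star k T) R =
    ∑ u ∈ range ((R \ T).card + 1), (pc (n - T.card) (k - T.card) (R \ T).card u : ℝ) * L u) ∧
  dg (star k T) R =
    ((n - T.card).choose (k - T.card) : ℝ) * dl (n - T.card) (k - T.card) (R \ T).card ∧
  ip (star k T) (star k T) = ((n - T.card).choose (k - T.card) : ℝ)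

/-- MAJ (50 lines; uses nothing). If no member of `A` contains `R` then `dg (ind A) R = 0` and the left
side is 0. Otherwise `R ⊆ F0 ∈ A` and `|R \ F| ≤ |F0 \ F| = k - |F0 ∩ F| ≤ k - t` for all `F ∈ A`, so
`∑_{F ∈ A} L(|R \ F|) ≥ ∑_{F ∈ A} ([R ⊆ F] - lam) = dg (ind A) R - lam |A|`. -/
def MAJStmt : Prop := ∀ (n k t r : ℕ) (lam : ℝ) (L : ℕ → ℝ), 0 ≤ lam → t ≤ k →
  (∀ u, u ≤ r → u ≤ k - t → (if u = 0 then 1 else 0) - lam ≤ L u) →
  ∀ A : Finset (KS n k), (∀ F ∈ A, ∀ G ∈ A, t ≤ (F.1 ∩ G.1).card) →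
  ∀ R : Finset (Fin n), R.card = r →
    max (dg (ind A) R - lam * (A.card : ℝ)) 0 ≤ |wf L (ind A) R|

/-! ### From truncated squares to powers -/

/-- PWI (80 lines). `max (x - μ) 0 = x - μ` on `(0,x]` and `0` on `(x,M]`;
`(x-μ)^2 μ^(p-3) = x^2 μ^(p-3) - 2 x μ^(p-2) + μ^(p-1)`, `integral_rpow` (`p - 3 > -1`), and
`1/(p-2) - 2/(p-1) + 1/p = 2/(p (p-1) (p-2))`. Also integrability on `(0,M]`. -/
def PWIStmt : Prop := ∀ (p x M : ℝ), 2 < p → 0 ≤ x → x ≤ M →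
  IntervalIntegrable (fun μ : ℝ => (max (x - μ) 0) ^ 2 * μ ^ (p - 3)) MeasureTheory.volume 0 M ∧
  ∫ μ in (0 : ℝ)..M, (max (x - μ) 0) ^ 2 * μ ^ (p - 3) = x ^ p * (2 / (p * (p - 1) * (p - 2)))

/-- PWR (50 lines; uses PWI). `p = 2`: take `μ = 0`. `p > 2`: multiply by `μ^(p-3) ≥ 0` and integrate
over `(0,M]`, `M` a common bound. -/
def PWRStmt : Prop := ∀ (ι : Type) (s : Finset ι) (x z : ι → ℝ) (p : ℝ), 2 ≤ p →
  (∀ i ∈ s, 0 ≤ x i) → (∀ i ∈ s, 0 ≤ z i) →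
  (∀ μ : ℝ, 0 ≤ μ → ∑ i ∈ s, (max (x i - μ) 0) ^ 2 ≤ ∑ i ∈ s, (max (z i - μ) 0) ^ 2) →
  ∑ i ∈ s, x i ^ p ≤ ∑ i ∈ s, z i ^ p

/-! ### The case `k = t + 1` (elementary) -/

/-- KTS (80 lines). Structure. If `A` has at most one member take a t-subset of it (or any t-set `⊆ univ`
if `A = ∅`; then the first alternative with `T' = ∅`-like choice is not needed because there is no `F`; a
t-set exists as `t + 2 ≤ n`). Otherwise `F1 ≠ F2` in `A`, `T' = F1 ∩ F2` (`|T'| = t`), `Z = F1 ∪ F2`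
(`|Z| = t + 2`), `F1 = T' + a`, `F2 = T' + b`. A member `F` which does not contain `T'` has
`|F ∩ T'| ≤ t - 1`, so `a, b ∈ F` and `F = T' - c + a + b ⊆ Z`. If there is such an `F3`, then a member
`F = T' + x` has `t ≤ |F ∩ F3|`, so `x ∈ {a, b}` and `F ⊆ Z`. -/
def KTSStmt : Prop := ∀ (n t : ℕ), 1 ≤ t → t + 2 ≤ n → ∀ A : Finset (KS n (t + 1)),
  (∀ F ∈ A, ∀ G ∈ A, t ≤ (F.1 ∩ G.1).card) →
  (∃ T' : Finset (Fin n), T'.card = t ∧ ∀ F ∈ A, T' ⊆ F.1) ∨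
    (∃ Z : Finset (Fin n), Z.card = t + 2 ∧ ∀ F ∈ A, F.1 ⊆ Z)

/-- NKT (70 lines). Put `D = t + 2` first (the right side increases with `D`). `r = 0` clear. Let
`f μ` be right minus left. `C(t+2,r)(t+2-r) = (t+2) C(t+1,r) = (t+2)(C(t,r) + C(t,r-1))` and
`C(t+2,r)(t+2-r)^2 = C(t,r)(t+2)^2 + C(t,r-1)(t+2)` (because `(t+2)(t+2-r) C(t+1,r)`, Pascal and
`r C(t+1,r) = (t+1) C(t,r-1)`). So for `0 ≤ μ ≤ 1` (then `t+2-r-μ > 0`)
`f μ = μ^2 (C(t,r) + (t+2) C(t,r-1) - C(t+2,r)) ≥ 0`, since `C(t+2,r) = C(t,r) + 2 C(t,r-1) + C(t,r-2)` and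
`C(t,r-2) ≤ t C(t,r-1)`. For `μ ≥ 1` the quotient `(t+2-r-μ)_+/(t+2-μ)` decreases with `μ`, so the case
`μ = 1` is enough. -/
def NKTStmt : Prop := ∀ (t r : ℕ) (D μ : ℝ), 1 ≤ t → r ≤ t → (t : ℝ) + 2 ≤ D → 0 ≤ μ →
  ((t + 2).choose r : ℝ) * (max ((t : ℝ) + 2 - r - μ) 0) ^ 2 ≤
    (t.choose r : ℝ) * (max (D - μ) 0) ^ 2 +
      (if r = 0 then 0 else (t.choose (r - 1) : ℝ)) * D * (max (1 - μ) 0) ^ 2

/-- KT1 (120 lines; uses KTS NKT). First alternative of KTS: `dg (ind A) R ≤ dg (star k T') R`, and the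
sums of the stars of `T'` and `T` agree (a permutation maps `T'` to `T`; or: STV-type values depend
only on `|R \ T|`, and the number of r-sets with `|R ∩ T| = i` is `C(t,i) C(n-t,r-i)`). Second: the degree
of `R` is 0 if `R` is not in `Z` and at most `t + 2 - r` otherwise (`F = Z - x`, `x ∈ Z \ R`), so the left
side is at most `C(t+2,r) (max (t+2-r-μ) 0)^2`. The star: `R ⊆ T` has degree `n - t`, `R` with
`|R ∩ T| = r - 1` has degree 1 (`R ∪ T` has `t + 1` points) and there are `C(t,r-1)(n-t)` of them.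
NKT with `D = n - t ≥ t + 2`. -/
def KT1Stmt : Prop := ∀ (n t r : ℕ), 1 ≤ t → r ≤ t → 2 * (t + 1) ≤ n → ∀ μ : ℝ, 0 ≤ μ →
  ∀ A : Finset (KS n (t + 1)), (∀ F ∈ A, ∀ G ∈ A, t ≤ (F.1 ∩ G.1).card) →
  ∀ T : Finset (Fin n), T.card = t →
    ∑ R ∈ powersetCard r (univ : Finset (Fin n)), (max (dg (ind A) R - μ) 0) ^ 2 ≤
      ∑ R ∈ powersetCard r (univ : Finset (Fin n)), (max (dg (star (t + 1) T) R - μ) 0) ^ 2

/-! ### Assembly of part B -/

/-- TSQ (100 lines; uses WFI LEX STV MAJ; `H59.p2a'`). TRUNCATED SQUARES. PROOF. `A = ∅`: the left side is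
0 (`dg = 0`, `μ ≥ 0`). Otherwise `lam = μ / |A|`, `L` from LEX with `N = n - t`, `K = k - t`
(`(t+1) K + 1 ≤ N` is `(t+1)(k-t+1) ≤ n`). For `|R| = r` and `B = dg (ind A) R`, MAJ:
`(max (B - μ) 0)^2 ≤ (wf L (ind A) R)^2`; sum and WFI: `≤ ∑_R (wf L (star k T) R)^2`, and by STV and LEX
(`|R \ T| ≤ r ≤ t ≤ n - k`) `wf L (star k T) R = |S| max (dl - lam) 0 = max (dg (star k T) R - lam |S|) 0`,
`|S| = ip (star k T) (star k T)`; as `|A| ≤ |S|` (P2A, `r = 0`) `lam |S| ≥ μ`. -/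
def TSQStmt : Prop := ∀ (n k t r : ℕ), 1 ≤ t → r ≤ t → t + 2 ≤ k → (t + 1) * (k - t + 1) ≤ n →
  ∀ μ : ℝ, 0 ≤ μ →
  ∀ A : Finset (KS n k), (∀ F ∈ A, ∀ G ∈ A, t ≤ (F.1 ∩ G.1).card) →
  ∀ T : Finset (Fin n), T.card = t →
    ∑ R ∈ powersetCard r (univ : Finset (Fin n)), (max (dg (ind A) R - μ) 0) ^ 2 ≤
      ∑ R ∈ powersetCard r (univ : Finset (Fin n)), (max (dg (star k T) R - μ) 0) ^ 2

end Pool.Agent.DPL
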