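import Pool.Agent.DPL.StmtsB

/-!
Squad DPL (MP_d97b4e_co), part C: `t = 2`, all levels `3 ≤ r ≤ k - 2`, the full range `n ≥ 3 (k - 1)`
(the levels `r ≤ 2` are part B).

Every row is one statement `XStmt`; the docstring contains the complete proof. Theorem names: `x` in
lower case, namespace `Pool.Agent.DPL.HNN`. Rows of parts A and B may be used as hypotheses
(`uses`) or, when done, directly.

THE FORM. `L u = [u = 0] - lam + κ [u = r]`, so for `|R| = r`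
`wf L f R = dg f R - lam ∑ f + κ ∑_{F ∩ R = ∅} f F`. With `κ = (lam - δ_r)_+ C(N,K)/C(N-r,K)`
(`N = n - 2`, `K = k - 2`, `δ_s = dl N K s`) and `lam ≤ δ_{r-1}` the star has the values
`|S| (δ_s - lam)_+`, `s = |R \ T| ∈ {r-2, r-1, r}`.
-/

namespace Pool.Agent.DPL

open Finset Polynomial Pool.Agent.DPS

/-- the function `L` of part C -/
noncomputable def L2 (r : ℕ) (lam κ : ℝ) : ℕ → ℝ :=
  fun u => (if u = 0 then 1 else 0) - lam + if u = r then κ else 0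

/-- the factor of the level `l`: `1 + (-1)^l κ (n-k-l)_{r-l} / (k-l)_{r-l}` -/
noncomputable def ta (n k r l : ℕ) (κ : ℝ) : ℝ :=
  1 + (-1 : ℝ) ^ l * κ * (((n - k - l).descFactorial (r - l) : ℝ) / ((k - l).descFactorial (r - l) : ℝ))

/-- GCM (150 lines; uses CER ODD LZE IDE; `H59.the'`, `H59.p2a'` not needed). THE CRITERION. Let
`Vc = μ 0 + ∑_{l=1..t} cc 0 l * μ l`, `V = Vc / cs`, `m' = Lagrange.interpolate (range (k+1)) (y n) μ`,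
`m = m' + C (Vc / C(n,k)) * mp n k 0`. Values (`H39.mev`: `mp n k 0` is `C(n,k)` at `y 0` and 0 at
`y 1..y k`): `m (y 0) = μ 0 + Vc`, `m (y l) = μ l` for `1 ≤ l ≤ k`. `ip f (aeval Y m' f) = ∑_{l ≤ k} μ l * lw l f`
(IDE) and `ip f (aeval Y (mp n k 0) f) = (∑ f)^2` (`H59.mpo'`, `H88.qua` with `r = 0`).
CER for `m'`, `α' = V` (star part): `∑ μ l lw_l(S) = V |S|`. CER for `m`, `α = 2 V` (`α cs = 2 Vc` ok), star
part: `V |S| + (Vc/C(n,k)) |S|^2 = 2 V |S|`, so `(Vc/C(n,k)) |S|^2 = V |S|`.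
The inequalities of CER for `m`, `2 V`: let `m* = min_{1 ≤ l ≤ t} μ l` (or argue with `∀ l, μ j ≤ μ l`
only: replace `m*` by `μ j`). `cs = 1 + ∑ cc 0 l ≥ 2` because `cs = (n)_t/(k)_t ≥ n/k ≥ 2` (CSC), so
`2 V ≥ (2/cs) μ j ∑_{l≥1} cc 0 l = 2 μ j (1 - 1/cs) ≥ μ j`.
Even `j` (so `j ≥ t + 2`, THE: `th j ≤ 1`): `μ j - ∑ cc j l μ l ≤ μ j (1 - th j) ≤ 2 V (1 - th j)`.
Odd `j`: `2 V (1 + th j) - ∑ cc j l μ l ≥ ∑_{l=1..t} μ l (2 (cc 0 l/cs) (1 + th j) - cc j l)`, all brackets are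
`≥ 0` (ODD), so this is `≥ μ j (2 (1 - 1/cs)(1 + th j) - th j) ≥ μ j (1 + th j - th j) = μ j`.
CER: `∑ μ l lw_l(A) + (Vc/C(n,k)) |A|^2 ≤ 2 V |A|`, hence (`|S| > 0`)
`∑ μ l lw_l(A) ≤ V (2 |A| - |A|^2/|S|) ≤ V |S|`. -/
def GCMStmt : Prop :=
  ∀ (n k t : ℕ), 1 ≤ t → t + 2 ≤ k → (t + 1) * (k - t + 1) ≤ n → ∀ μ : ℕ → ℝ,
    (∀ l, l ≤ k → 0 ≤ μ l) → (∀ l j, 1 ≤ l → l ≤ t → t < j → j ≤ k → μ j ≤ μ l) →
    ∀ A : Finset (KS n k), (∀ F ∈ A, ∀ G ∈ A, t ≤ (F.1 ∩ G.1).card) →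
    ∀ T : Finset (Fin n), T.card = t →
      ∑ l ∈ Finset.range (k + 1), μ l * lw n k l (ind A) ≤
        ∑ l ∈ Finset.range (k + 1), μ l * lw n k l (star k T)

/-- LAD (30 lines). Dual of STR: `dg f R = ip (star k R) f`, `dg (Y f) R = ip (Y (star k R)) f`
(`H77.sym`), then `H59.str`. -/
def LADStmt : Prop :=
  ∀ (n k : ℕ) (f : KS n k → ℝ) (R : Finset (Fin n)),
    ((k : ℝ) - R.card + 1) * ∑ x ∈ R, dg f (R.erase x) = y n R.card * dg f R - dg (Y n k f) R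

/-- LAS (80 lines; uses LAD). Sums of degrees on a level. Downward induction on `j` from `j = r`: for
`l < j ≤ r` (LAD for every j-subset of `R`, `Y f = y l • f`)
`(k-j+1) ∑_{J' ⊆ R, |J'| = j} ∑_{x ∈ J'} dg f (J' \ x) = (y j - y l) ∑_{J'} dg f J'` and the left double sum is
`(r-j+1) ∑_{J ⊆ R, |J| = j-1} dg f J`. `y j - y l = (j-l)(n+1-j-l)`; the factors are
`(k-j+1) (k-j).descFactorial (r-j) = (k-j+1).descFactorial (r-j+1)` and similarly for the others. -/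
def LASStmt : Prop :=
  ∀ (n k l r j : ℕ), 2 * k ≤ n → l ≤ j → j ≤ r → r ≤ k → ∀ f : KS n k → ℝ, Y n k f = y n l • f →
    ∀ R : Finset (Fin n), R.card = r →
      ((k - j).descFactorial (r - j) : ℝ) * ∑ J ∈ powersetCard j R, dg f J =
        ((r - l).choose (r - j) : ℝ) * ((n - l - j).descFactorial (r - j) : ℝ) * dg f R

/-- VDM (40 lines). With `S(a,B,A)` the left side: Pascal for `C(a+1,j)` gives
`S(a+1,B,A) = (B-a) S(a,B,A) - A S(a,B-1,A-1)` (`(B-j)_{a+1-j} = (B-j)_{a-j} (B-a)`,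
`(A)_{i+1} = A (A-1)_i`), so by induction `= (B-a)(B-A)_a - A (B-A)_a = (B-A)_{a+1}`. -/
def VDMStmt : Prop :=
  ∀ (a A B : ℕ), a ≤ A → A + a ≤ B →
    ∑ j ∈ Finset.range (a + 1), (-1 : ℝ) ^ j * (a.choose j : ℝ) *
      ((B - j).descFactorial (a - j) : ℝ) * (A.descFactorial j : ℝ) = ((B - A).descFactorial a : ℝ)

/-- DIS (40 lines). Inclusion and exclusion: exchange the sums and
`∑_{J ⊆ R ∩ F} (-1)^|J| = [R ∩ F = ∅]` (`Finset.sum_powerset_neg_one_pow_card`, as in KNA). -/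
def DISStmt : Prop :=
  ∀ (n k : ℕ) (f : KS n k → ℝ) (R : Finset (Fin n)),
    (∑ F : KS n k, if Disjoint R F.1 then f F else 0) =
      ∑ j ∈ Finset.range (R.card + 1), (-1 : ℝ) ^ j * ∑ J ∈ powersetCard j R, dg f J

/-- TAU (80 lines; uses IDE DGE LAS VDM DIS). `g = E n k l f` satisfies `Y g = y l • g` (IDE, second part
with `b = X`). DIS; the terms `j < l` vanish (DGE); for `j = l + i`, `a = r - l`, LAS gives
`∑_J dg g J = C(a,i) (n-2l-i)_{a-i} / (k-l-i)_{a-i} * dg g R`; multiply by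
`(k-l)_a = (k-l)_i (k-l-i)_{a-i}` and use VDM with `A = k - l`, `B = n - 2 l`
(`A + a ≤ B` because `r ≤ k`, `2 k ≤ n`; `B - A = n - k - l`). -/
def TAUStmt : Prop :=
  ∀ (n k l r : ℕ), 2 * k ≤ n → l ≤ r → r ≤ k → ∀ (f : KS n k → ℝ) (R : Finset (Fin n)), R.card = r →
    ((k - l).descFactorial (r - l) : ℝ) *
        (∑ F : KS n k, if Disjoint R F.1 then E n k l f F else 0) =
      (-1 : ℝ) ^ l * ((n - k - l).descFactorial (r - l) : ℝ) * dg (E n k l f) R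

/-- WEL (60 lines; uses DGE TAU DIS). For `|R| = r ≥ 1`: `|R \ F| = 0` iff `R ⊆ F`, `|R \ F| = r` iff
`Disjoint R F`. So `wf (L2 r lam κ) g R = dg g R - lam ∑ g + κ ∑_{F ∩ R = ∅} g F`, `g = E n k l f`,
`∑ g = dg g ∅ = 0` for `l ≥ 1` (DGE). `l ≤ r`: TAU (`(k-l)_{r-l} ≠ 0`). `l > r`: all `dg g J = 0` for `J ⊆ R` (DGE),
and DIS. -/
def WELStmt : Prop :=
  ∀ (n k l r : ℕ), 2 * k ≤ n → 1 ≤ r → r ≤ k → 1 ≤ l → l ≤ k → ∀ (lam κ : ℝ) (f : KS n k → ℝ)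
    (R : Finset (Fin n)), R.card = r →
    wf (L2 r lam κ) (E n k l f) R = if l ≤ r then ta n k r l κ * dg (E n k l f) R else 0

/-- QTW (100 lines; uses IDE PLY LZE WEL). The form and its weights. Let `b` be the polynomial of PLY. By
IDE `∑_R (wf L f R)^2 = ∑_{l ≤ k} b(y l) * lw l f` for all `f`; for `E l f` instead of `f`
(`lw l' (E l f) = 0` for `l' ≠ l`, `lw l (E l f) = lw l f`: IDE, second part) this gives
`b(y l) * lw l f = ∑_R (wf L (E l f) R)^2`. For `1 ≤ l ≤ r` the right side is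
`ta^2 ∑_R (dg (E l f) R)^2 = ta^2 ip (E l f) (M n k r (E l f)) = ta^2 (mp n k r)(y l) lw l f` (WEL, `H88.qua`,
`H59.mpo'`, IDE); for `l > r` it is 0. Take `μ 0 = b(y 0)`; it is `≥ 0`: `f = 1` has
`lw 0 f = C(n,k) > 0` (LZE). -/
def QTWStmt : Prop :=
  ∀ (n k r : ℕ), 2 * k ≤ n → 1 ≤ r → r ≤ k → ∀ (lam κ : ℝ), ∃ μ : ℕ → ℝ, 0 ≤ μ 0 ∧
    (∀ l, 1 ≤ l → l ≤ r → μ l = ta n k r l κ ^ 2 * (mp n k r).eval (y n l)) ∧
    (∀ l, r < l → μ l = 0) ∧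
    ∀ f : KS n k → ℝ, ∑ R ∈ powersetCard r (univ : Finset (Fin n)), wf (L2 r lam κ) f R ^ 2 =
      ∑ l ∈ Finset.range (k + 1), μ l * lw n k l f

/-- MON (150 lines). Comparison of the weights for `t = 2`. By MEV (`H39.mev`)
`(mp n k r)(y l) = C(k-l,k-r) C(n-r-l,k-r) =: h l` for `l ≤ r`, and
`h (l+1)/h l = ((r-l)/(k-l)) ((n-k-l)/(n-r-l)) ≤ 1`. Let `ρ l = (n-k-l)_{r-l}/(k-l)_{r-l}` and
`x l = κ ρ l ≥ 0`. `ρ l/ρ (l+1) = (n-k-l)/(k-l)`. From `κ ≤ (k-2)_{r-1}/(n-k-1)_{r-1}`: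
`x 1 ≤ (k-r)/(k-1)` (`(k-1)_{r-1}/(k-2)_{r-1} = (k-1)/(k-r)`), and for `j ≥ 2`
`x j ≤ x 2 ≤ (k-2)_{r-1}/((k-2)_{r-2} (n-k-1)) = (k-r)/(n-k-1)` (`ρ` decreases).
`l = 2`: `(1 + x 2)^2 h 2 ≥ (1 ± x j)^2 h j` because `0 ≤ x j ≤ x 2` and `h j ≤ h 2`
(`|1 ± x j| ≤ 1 + x j`).
`l = 1`: `1 - x 1 ≥ (r-1)/(k-1) ≥ 0`, `|1 ± x j| ≤ 1 + x j ≤ 1 + (k-r)/(n-k-1) = (n-r-1)/(n-k-1)
≤ (n-r-2)/(n-k-2)`, and for `j ≥ 3`, `h j ≤ h 3 = h 1 ((r-1)(r-2)/((k-1)(k-2))) ((n-k-1)(n-k-2)/((n-r-1)(n-r-2)))`.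
So `(1 ± x j)^2 h j ≤ h 1 (r-1)(r-2)/((k-1)(k-2)) ≤ h 1 ((r-1)/(k-1))^2 ≤ (1 - x 1)^2 h 1`. -/
def MONStmt : Prop :=
  ∀ (n k r l j : ℕ) (κ : ℝ), 3 * (k - 1) ≤ n → 3 ≤ r → r + 2 ≤ k → 0 ≤ κ →
    κ ≤ ((k - 2).descFactorial (r - 1) : ℝ) / ((n - k - 1).descFactorial (r - 1) : ℝ) →
    1 ≤ l → l ≤ 2 → 2 < j → j ≤ r →
    ta n k r j κ ^ 2 * (mp n k r).eval (y n j) ≤ ta n k r l κ ^ 2 * (mp n k r).eval (y n l)

/-- KBD (50 lines). The size of `κ`. With `N = n - 2`, `K = k - 2`: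
`dl (r-1) - dl r = (C(N-r+1,N-K) - C(N-r,N-K))/C(N,K) = C(N-r,N-K-1)/C(N,K)`, and
`C(N-r,N-K-1) = C(N-r,K-r+1)`, `C(N-r,K-r+1)/C(N-r,K) = (K)_{r-1}/(N-K-1)_{r-1}` (factorials,
`N - K = n - k`). -/
def KBDStmt : Prop :=
  ∀ (n k r : ℕ) (lam : ℝ), 2 * k ≤ n → 3 ≤ r → r + 2 ≤ k → lam ≤ dl (n - 2) (k - 2) (r - 1) →
    max (lam - dl (n - 2) (k - 2) r) 0 * ((n - 2).choose (k - 2) : ℝ) /
        ((n - 2 - r).choose (k - 2) : ℝ) ≤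
      ((k - 2).descFactorial (r - 1) : ℝ) / ((n - k - 1).descFactorial (r - 1) : ℝ)

/-- ST2 (60 lines; uses STV). The values for the star, `s = |R \ T| ∈ {r-2, r-1, r}`. STV:
`wf L (star) R = ∑_{u ≤ s} pc N K s u L2 u`, `∑_{u ≤ s} pc N K s u = C(N,K)` (HYP or Vandermonde; or apply
STV to the constant function), `pc N K s 0 = C(N,K) dl s`, `pc N K r r = C(N-r,N-K-r) = C(N-r,K)`. For
`s < r` the term `u = r` does not occur and `dl s ≥ dl (r-1) ≥ lam`; for `s = r`: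
`C(N,K)(dl r - lam + max (lam - dl r) 0) = C(N,K) max (dl r - lam) 0`. -/
def ST2Stmt : Prop :=
  ∀ (n k r : ℕ) (lam : ℝ), 3 * (k - 1) ≤ n → 3 ≤ r → r + 2 ≤ k → 0 ≤ lam →
    lam ≤ dl (n - 2) (k - 2) (r - 1) → ∀ T R : Finset (Fin n), T.card = 2 → R.card = r →
    wf (L2 r lam (max (lam - dl (n - 2) (k - 2) r) 0 * ((n - 2).choose (k - 2) : ℝ) /
        ((n - 2 - r).choose (k - 2) : ℝ))) (star k T) R =
      max (dg (star k T) R - lam * ip (star k T) (star k T)) 0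

/-- TSL (100 lines; uses GCM QTW MON KBD ST2; `H59.p2a'`). Truncated squares, small thresholds.
`lam = μ / C(n-2,k-2) ≤ dl (r-1)` (`C(n-2,k-2) dl (r-1) = C(n-r-1,n-k) = C(n-r-1,k-r-1)`), `κ` as in ST2, `κ ≥ 0`,
`L = L2 r lam κ`. `wf L (ind A) R ≥ dg (ind A) R - lam |A| ≥ dg (ind A) R - μ` (`|A| ≤ |S| = C(n-2,k-2)`,
`H59.p2a'`, STV), so `(max (dg (ind A) R - μ) 0)^2 ≤ (wf L (ind A) R)^2`. QTW and GCM (`t = 2`; the weights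
`μ l` of QTW: nonnegative as squares times `(mp n k r)(y l) ≥ 0` (`H83.man` or MEV), `μ j ≤ μ l` by MON for
`j ≤ r` and `μ j = 0` for `j > r`) give `∑_R wf(A)^2 ≤ ∑_R wf(S)^2`, and ST2. -/
def TSLStmt : Prop :=
  ∀ (n k r : ℕ), 3 * (k - 1) ≤ n → 3 ≤ r → r + 2 ≤ k → ∀ μ : ℝ, 0 ≤ μ →
    μ ≤ ((n - r - 1).choose (k - r - 1) : ℝ) →
    ∀ A : Finset (KS n k), (∀ F ∈ A, ∀ G ∈ A, 2 ≤ (F.1 ∩ G.1).card) →
    ∀ T : Finset (Fin n), T.card = 2 →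
    ∑ R ∈ powersetCard r (univ : Finset (Fin n)), (max (dg (ind A) R - μ) 0) ^ 2 ≤
      ∑ R ∈ powersetCard r (univ : Finset (Fin n)), (max (dg (star k T) R - μ) 0) ^ 2

/-- TST (100 lines; uses TSL STV). All thresholds. Let `μ1 = C(n-r-1,k-r-1)`, `D0 = C(n-r,k-r) > μ1`. Every
degree is at most `D0` (the number of k-sets containing `R`). For `μ ≤ μ1`: TSL. For `μ ≥ D0` the left
side is 0. For `μ1 ≤ μ ≤ D0` and `x ≤ D0`: `(x-μ)_+ ≤ c (x-μ1)_+`, `c = (D0-μ)/(D0-μ1)`. The star has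
degree `D0` if `T ⊆ R` and at most `μ1` otherwise (STV: `dl` is antitone, `|R \ T| ≥ r - 1`), so
`∑ (d_S-μ)_+^2 = #{R ⊇ T} (D0-μ)^2 = c^2 ∑ (d_S-μ1)_+^2`. -/
def TSTStmt : Prop :=
  ∀ (n k r : ℕ), 3 * (k - 1) ≤ n → 3 ≤ r → r + 2 ≤ k → ∀ μ : ℝ, 0 ≤ μ →
    ∀ A : Finset (KS n k), (∀ F ∈ A, ∀ G ∈ A, 2 ≤ (F.1 ∩ G.1).card) →
    ∀ T : Finset (Fin n), T.card = 2 →
    ∑ R ∈ powersetCard r (univ : Finset (Fin n)), (max (dg (ind A) R - μ) 0) ^ 2 ≤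
      ∑ R ∈ powersetCard r (univ : Finset (Fin n)), (max (dg (star k T) R - μ) 0) ^ 2

end Pool.Agent.DPL
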